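import Mathlib

set_option autoImplicit false

namespace Pool.Agent.Q169.Cliff

open Set Topology

/-- Building a chart from explicit maps. -/
theorem chart {Y : Type*} [TopologicalSpace Y] (S V : Set Y) (hVS : V ⊆ S)
    (hVo : IsOpen (Subtype.val ⁻¹' V : Set S)) (p : S) (hp : (p : Y) ∈ V) (f : ℝ → Y)
    (hf : Continuous f) (g : Y → ℝ) (hg : ContinuousOn g V) (hfV : ∀ t, f t ∈ V)
    (hgf : ∀ t, g (f t) = t) (hfg : ∀ y ∈ V, f (g y) = y) :
    ∃ U : Set S, IsOpen U ∧ p ∈ U ∧ Nonempty (U ≃ₜ ℝ) := by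
  refine ⟨Subtype.val ⁻¹' V, hVo, hp, ⟨?_⟩⟩
  exact
    { toFun := fun q => g q.1.1
      invFun := fun t => ⟨⟨f t, hVS (hfV t)⟩, hfV t⟩
      left_inv := by
        rintro ⟨⟨y, hy⟩, hyV⟩
        apply Subtype.ext
        apply Subtype.ext
        exact hfg y hyV
      right_inv := by
        intro t
        exact hgf t
      continuous_toFun := by
        have h1 : Continuous (fun q : (Subtype.val ⁻¹' V : Set S) => (⟨q.1.1, q.2⟩ : V)) := by
          fun_prop
        have h2 : Continuous (V.domRestrict g) := continuousOn_iff_continuous_domRestrict.mp hg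
        exact h2.comp h1
      continuous_invFun := by fun_prop }

/-- The rational parametrisation of a circle of radius `√2` minus a point. -/
theorem circle_chart (a0 b0 : ℝ) (h0 : a0 ^ 2 + b0 ^ 2 = 2) :
    ∃ (F : ℝ → ℝ × ℝ) (G : ℝ × ℝ → ℝ), Continuous F ∧
      ContinuousOn G {q | q.1 ^ 2 + q.2 ^ 2 = 2 ∧ q ≠ (-a0, -b0)} ∧
      (∀ t, (F t).1 ^ 2 + (F t).2 ^ 2 = 2 ∧ F t ≠ (-a0, -b0)) ∧ (∀ t, G (F t) = t) ∧
      (∀ q : ℝ × ℝ, q.1 ^ 2 + q.2 ^ 2 = 2 → q ≠ (-a0, -b0) → F (G q) = q) := by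
  refine ⟨fun t => (((1 - t ^ 2) / (1 + t ^ 2)) * a0 - (2 * t / (1 + t ^ 2)) * b0,
    ((1 - t ^ 2) / (1 + t ^ 2)) * b0 + (2 * t / (1 + t ^ 2)) * a0),
    fun q => ((-q.1 * b0 + q.2 * a0) / 2) / (1 + (q.1 * a0 + q.2 * b0) / 2), ?_, ?_, ?_, ?_, ?_⟩
  · have h1 : ∀ t : ℝ, 1 + t ^ 2 ≠ 0 := fun t => by positivity
    fun_prop (disch := exact h1 _)
  · apply ContinuousOn.div (by fun_prop) (by fun_prop)
    rintro ⟨a, b⟩ ⟨hq, hne⟩ h
    apply hne
    have h1 : a * a0 + b * b0 = -2 := by linarith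
    have h2 : (a + a0) ^ 2 + (b + b0) ^ 2 = 0 := by nlinarith
    have h3 : a + a0 = 0 := by nlinarith [sq_nonneg (a + a0), sq_nonneg (b + b0)]
    have h4 : b + b0 = 0 := by nlinarith [sq_nonneg (a + a0), sq_nonneg (b + b0)]
    exact Prod.ext (by linarith) (by linarith)
  · intro t
    have h1 : (1 + t ^ 2) ≠ 0 := by positivity
    have hcs : ((1 - t ^ 2) / (1 + t ^ 2)) ^ 2 + (2 * t / (1 + t ^ 2)) ^ 2 = 1 := by
      field_simp; ring
    refine ⟨?_, ?_⟩
    · simp only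
      set c := (1 - t ^ 2) / (1 + t ^ 2)
      set s := 2 * t / (1 + t ^ 2)
      calc (c * a0 - s * b0) ^ 2 + (c * b0 + s * a0) ^ 2 = (c ^ 2 + s ^ 2) * (a0 ^ 2 + b0 ^ 2) := by
            ring
        _ = 2 := by rw [hcs, h0]; ring
    · intro h
      have e1 := congrArg Prod.fst h
      have e2 := congrArg Prod.snd h
      simp only at e1 e2
      have h5 : (1 - t ^ 2) / (1 + t ^ 2) * 2 = -2 := by
        set c := (1 - t ^ 2) / (1 + t ^ 2)
        set s := 2 * t / (1 + t ^ 2)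
        calc c * 2 = c * (a0 ^ 2 + b0 ^ 2) := by rw [h0]
          _ = (c * a0 - s * b0) * a0 + (c * b0 + s * a0) * b0 := by ring
          _ = -2 := by rw [e1, e2]; linarith
      rw [div_mul_eq_mul_div, div_eq_iff h1] at h5
      linarith
  · intro t
    have h1 : (1 + t ^ 2) ≠ 0 := by positivity
    simp only
    have e1 : (-((1 - t ^ 2) / (1 + t ^ 2) * a0 - 2 * t / (1 + t ^ 2) * b0) * b0 +
        ((1 - t ^ 2) / (1 + t ^ 2) * b0 + 2 * t / (1 + t ^ 2) * a0) * a0) / 2 =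
        2 * t / (1 + t ^ 2) := by
      set c := (1 - t ^ 2) / (1 + t ^ 2)
      set s := 2 * t / (1 + t ^ 2)
      calc (-(c * a0 - s * b0) * b0 + (c * b0 + s * a0) * a0) / 2 =
          s * (a0 ^ 2 + b0 ^ 2) / 2 := by ring
        _ = s := by rw [h0]; ring
    have e2 : (((1 - t ^ 2) / (1 + t ^ 2) * a0 - 2 * t / (1 + t ^ 2) * b0) * a0 +
        ((1 - t ^ 2) / (1 + t ^ 2) * b0 + 2 * t / (1 + t ^ 2) * a0) * b0) / 2 =
        (1 - t ^ 2) / (1 + t ^ 2) := by
      set c := (1 - t ^ 2) / (1 + t ^ 2)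
      set s := 2 * t / (1 + t ^ 2)
      calc ((c * a0 - s * b0) * a0 + (c * b0 + s * a0) * b0) / 2 =
          c * (a0 ^ 2 + b0 ^ 2) / 2 := by ring
        _ = c := by rw [h0]; ring
    rw [e1, e2]
    have h2 : 1 + (1 - t ^ 2) / (1 + t ^ 2) = 2 / (1 + t ^ 2) := by field_simp; ring
    rw [h2]
    field_simp
  · rintro ⟨a, b⟩ hq hne
    simp only at hq ⊢
    set c := (a * a0 + b * b0) / 2 with hc
    set s := (-a * b0 + b * a0) / 2 with hs
    have hcs : c ^ 2 + s ^ 2 = 1 := by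
      have : c ^ 2 + s ^ 2 = (a ^ 2 + b ^ 2) * (a0 ^ 2 + b0 ^ 2) / 4 := by
        rw [hc, hs]; ring
      rw [this, hq, h0]; norm_num
    have hc1 : 1 + c ≠ 0 := by
      intro h
      apply hne
      have h1 : a * a0 + b * b0 = -2 := by rw [hc] at h; linarith
      have h2 : (a + a0) ^ 2 + (b + b0) ^ 2 = 0 := by nlinarith
      have h3 : a + a0 = 0 := by nlinarith [sq_nonneg (a + a0), sq_nonneg (b + b0)]
      have h4 : b + b0 = 0 := by nlinarith [sq_nonneg (a + a0), sq_nonneg (b + b0)]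
      exact Prod.ext (by simp only; linarith) (by simp only; linarith)
    have ht : 1 + (s / (1 + c)) ^ 2 = 2 / (1 + c) := by
      field_simp
      nlinarith
    have e1 : (1 - (s / (1 + c)) ^ 2) / (1 + (s / (1 + c)) ^ 2) = c := by
      rw [ht]
      have : 1 - (s / (1 + c)) ^ 2 = 2 - 2 / (1 + c) := by linarith
      rw [this]
      field_simp
      ring
    have e2 : 2 * (s / (1 + c)) / (1 + (s / (1 + c)) ^ 2) = s := by
      rw [ht]; field_simp
    rw [e1, e2]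
    have e3 : c * a0 - s * b0 = a := by
      calc c * a0 - s * b0 = a * (a0 ^ 2 + b0 ^ 2) / 2 := by rw [hc, hs]; ring
        _ = a := by rw [h0]; ring
    have e4 : c * b0 + s * a0 = b := by
      calc c * b0 + s * a0 = b * (a0 ^ 2 + b0 ^ 2) / 2 := by rw [hc, hs]; ring
        _ = b := by rw [h0]; ring
    rw [e3, e4]

end Pool.Agent.Q169.Cliff
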