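import Mathlib

set_option autoImplicit false
set_option maxHeartbeats 4000000

namespace Pool.Agent.Q169.Cliff

theorem det8 (w v z : ℂ) :
    (!![-z, 1, 0, 0, -v, 0, 0, 0;
        1, -z, 0, 0, 0, -v, 0, 0;
        0, 0, -z, 1, 9, 0, -v, 0;
        0, 0, 1, -z, 0, -1, 0, -v;
        -w, 0, 9, 0, z, -1, 0, 0;
        0, -w, 0, -1, -1, z, 0, 0;
        0, 0, -w, 0, 0, 0, z, -1;
        0, 0, 0, -w, 0, 0, -1, z] : Matrix (Fin 8) (Fin 8) ℂ).det =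
    ((w*v+z^2+1)^2 + 5*z^2 - 9)^2 + 64*z^2*(2-(w*v+z^2+1))^2 := by
  simp [Matrix.det_succ_row_zero, Fin.sum_univ_succ, Fin.succAbove]
  ring

end Pool.Agent.Q169.Cliff
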